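import Pool.Agent.H27.OTC.FinalPlan

/-!
MP_91df8f_pr: the optimal plans between the empirical measures (Euclidean cost) converge in
probability to a deterministic plan `limPlan γ`, where `γ` is the limit law of the horizontal
coordinates in the local (parabolic) assignment problem.
-/

set_option autoImplicit false

open MeasureTheory ProbabilityTheory Filter
open scoped ENNReal Topology BoundedContinuousFunction
open Pool.Agent.H96.OT Pool.Agent.H27.OTC

namespace Pool.Agent.H27.Archive.LimitPlan

/-- There is a probability measure `γ` on `[0,1] × [2,3]` with uniform marginals such that: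

* for all samples, the optimal plans between the empirical measures converge in probability
  (for the topology of weak convergence) to `limPlan γ`, the law of `((a, t), (b, t))` where
  `(a, b)` has law `γ` and `t` is uniform in `[0,1]`, independent of `(a, b)`; all optimal plans
  converge, so the choice of `π_n` does not matter;
* `γ` is the limit law of the horizontal coordinates in the local problem: for `n` uniform points
  `(a_i, u_i)` of `[0,1] × (0,n]` and `n` uniform points `(b_i, v_i)` of `[2,3] × (0,n]`, the
  averages of `f (a_i, b_(σ i))` over the optimal assignments `σ` for the cost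
  `(v - u)² / (b - a)` converge in probability to `∫ f dγ`. -/
theorem result : ∃ (γ : Measure (ℝ × ℝ)) (_ : IsProbabilityMeasure γ),
    γ.map Prod.fst = volume.restrict (Set.Icc (0 : ℝ) 1) ∧
    γ.map Prod.snd = volume.restrict (Set.Icc (2 : ℝ) 3) ∧
    (∀ {Ω : Type} [MeasurableSpace Ω] (P : Measure Ω) [IsProbabilityMeasure P]
      (X Y : ℕ → Ω → Pl), IsSample P X Y → ∀ U ∈ 𝓝 (limPM γ),
        Tendsto (fun n : ℕ => P {ω | ∃ π : ProbabilityMeasure (Pl × Pl),
          IsOptimalPlan (emp n (fun i => X i ω)) (emp n (fun i => Y i ω)) π ∧ π ∉ U})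
            atTop (𝓝 0)) ∧
    (∀ (f : (ℝ × ℝ) →ᵇ ℝ) (ε : ℝ), 0 < ε → Tendsto (fun n : ℕ => smpLaw n
      {p | ∃ σ : Equiv.Perm (Fin n), IsOptM par p.1 (fun i => p.2 (σ i)) ∧
        ε < |(∑ i, f ((p.1 i).1, (p.2 (σ i)).1)) / n - ∫ z, f z ∂γ|}) atTop (𝓝 0)) := by
  obtain ⟨γ, hprob, hsupp, hlim⟩ := exists_gamma
  have hm := gamma_marginals hlim
  refine ⟨γ, hprob, hm.1, hm.2, ?_, ?_⟩
  · intro Ω _ P _ X Y h U hU
    apply conv_nhds (P := P) (ν := limPM γ)
      (A := fun n ω => {π : ProbabilityMeasure (Pl × Pl) |
        IsOptimalPlan (emp n (fun i => X i ω)) (emp n (fun i => Y i ω)) π}) _ hU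
    intro f ε hε
    exact conv_plan_test h f (fun ε' hε' => conv_test goodCost_euc hsupp hlim f hε') hε
  · intro f ε hε
    have h1 := hlim f f.continuous ⟨‖f‖, fun z => f.norm_coe_le_norm z⟩ (fun _ => par)
      goodCost_par (fun _ => 1) uniformContinuous_const (fun _ => zero_le_one) (fun _ => le_rfl)
      ε hε
    refine h1.congr (fun n => ?_)
    congr 1
    ext p
    simp [avg]

end Pool.Agent.H27.Archive.LimitPlan
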