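import Pool.Agent.H27.OP.Final2

/-!
# Syzygies of Veronese embeddings: property `N_p` for `p ≤ d + a + d / a`, `a = 1, …, n`

Over every field `K` of characteristic `0`, for all `n, d ≥ 1`, the line bundle `O(d)` on `ℙ^n`
satisfies property `N_p` for every `p` with `a (p - a) ≤ (a + 1) d` for all `1 ≤ a ≤ n`
(truncated subtraction; the condition is `p ≤ d + a + d / a`).  For every `n` this contains all
`p` with `(p - d)² < 4 (d + 1)`, that is `p < d + 2 √(d + 1)`, and for fixed `n` and `d ≥ n (n - 1)`
it is `p ≤ d + d / n + n`, so the bound grows like `(1 + 1 / n) d`.  In fact the Koszul complex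

`Λ^{i+1} V ⊗ S_{m-d} → Λ^i V ⊗ S_m → Λ^{i-1} V ⊗ S_{m+d}`,  `V = S_d`,

is exact in the middle for all `i ≤ p` and all `m ≥ 2 d`.  The complex is written out exactly as
in the frozen statement of the problem (which is the case `K = ℂ`, `m = q d`).

Outline of the proof (all steps in `Pool/Agent/H27/OP`).  Let `Z_a(m)` and `B_a(m)` be the cycles
and the boundaries in `Λ^a V ⊗ S_m`.  For a linear form `c` and a list `F` of forms of degree
`d - 1` let `Π_c(F)` be exterior multiplication by all `c f`, `f ∈ F`, and
`C_c(F) = ∑ ± f_i Π_c(F ∖ f_i)`.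

* Main lemma: `C_c(F) κ` is a boundary for every cycle `κ ∈ Z_a(m)`, `m > d`, `|F| = p + 1 - a`,
  `a ≤ p`.  Induction on `a`.  The set `W` of good cycles is stable under the derivations
  `D_{c,y} = c ∂_y`, contains all weight vectors with a weight `≥ p + 1 - a` (chain lemma), and
  a weight vector `κ` with `a + 1` letters `y_1 < ⋯ < y_{a+1}` of positive weight is in `W` as soon
  as all `D_{y_i y_j} κ`, `i < j`, are (a Capelli type identity, proved by adding one odd variable
  to the polynomial ring).  It suffices to treat multiples `c` of a variable `x`, and then, as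
  `C_c(F)` kills `D_{c,x} κ` up to boundaries, weight vectors `κ` which do not involve `x`; so at
  most `n` letters occur.  The weights of `κ` sum to `a d + m`, and the pigeonhole principle
  finishes the induction as soon as `min(a, n) (p - a) ≤ (a + 1) d`.
* Multiplication by a variable is injective on the Koszul cohomology in degrees `m ≥ 2 d`.
* `x^d κ` is a boundary for every cycle `κ`.
-/

open MvPolynomial

namespace Pool.Agent.H27.Archive.SyzygiesByDimension

theorem result {K : Type} [Field K] [CharZero K] :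
    ∀ n d p : ℕ, 1 ≤ n → 1 ≤ d →
    ((p - d) ^ 2 < 4 * (d + 1) ∨ ∀ a : ℕ, 1 ≤ a → a ≤ n → a * (p - a) ≤ (a + 1) * d) →
    ∀ N : ℕ, ∀ φ : Fin N → MvPolynomial (Fin (n + 1)) K,
      (∀ k, φ k ∈ MvPolynomial.homogeneousSubmodule (Fin (n + 1)) K d) →
      LinearIndependent K φ →
      Submodule.span K (Set.range φ) = MvPolynomial.homogeneousSubmodule (Fin (n + 1)) K d →
      ∀ i : ℕ, i ≤ p → ∀ m : ℕ, 2 * d ≤ m →
      ∀ f : Finset (Fin N) → MvPolynomial (Fin (n + 1)) K,
        (∀ I, f I ∈ MvPolynomial.homogeneousSubmodule (Fin (n + 1)) K m) →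
        (∀ I : Finset (Fin N), I.card ≠ i → f I = 0) →
        (∀ J : Finset (Fin N), J.card + 1 = i →
          ∑ b ∈ Jᶜ, (-1 : MvPolynomial (Fin (n + 1)) K) ^ (J.filter (fun c => c < b)).card
            * φ b * f (insert b J) = 0) →
        ∃ g : Finset (Fin N) → MvPolynomial (Fin (n + 1)) K,
          (∀ I, g I ∈ MvPolynomial.homogeneousSubmodule (Fin (n + 1)) K (m - d)) ∧
          (∀ I : Finset (Fin N), I.card ≠ i + 1 → g I = 0) ∧
          ∀ I : Finset (Fin N), I.card = i →
            f I = ∑ b ∈ Iᶜ, (-1 : MvPolynomial (Fin (n + 1)) K) ^ (I.filter (fun c => c < b)).card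
              * φ b * g (insert b I) := by
  intro n d p hn hd hp N φ hφ hli hsp i hi m hm f hf hf0 hz
  rcases hp with hp | hp
  · exact Pool.Agent.H27.OP.koszul_exact n d p hd hp N φ hφ hli hsp i hi m hm f hf hf0 hz
  · exact Pool.Agent.H27.OP.koszul_exact_dim n d p hn hd hp N φ hφ hli hsp i hi m hm f hf hf0 hz

end Pool.Agent.H27.Archive.SyzygiesByDimension
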